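import Pool.Agent.Work.MP_91aed7_am.Interface

/-!
# MP_91aed7_ag, block DIV: the leading part of an automorphism has divergence zero
-/

set_option autoImplicit false

open Finset

namespace Pool.AM.DIV_

noncomputable section

theorem mem_low (n L : ℕ) (v : Vr n) : v ∈ low n L ↔ v ∈ lowF n L := by
  unfold low lowF
  rcases v with i | j
  · simp
  · simp

theorem coe_lowF (n L : ℕ) : ((lowF n L : Finset (Vr n)) : Set (Vr n)) = low n L := by
  ext v
  rw [mem_low]
  simp

variable {k : Type} [Field k] {n : ℕ}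

theorem prod_mem (hJ : JLaws k n) {ι : Type} (t : Finset ι) (e : ι → ℕ) (f : ι → PS k n)
    (hf : ∀ i ∈ t, f i ∈ J k n (e i)) : ∏ i ∈ t, f i ∈ J k n (∑ i ∈ t, e i) := by
  classical
  induction t using Finset.induction_on with
  | empty => exact hJ.zero _
  | insert a t ha ih =>
    rw [Finset.prod_insert ha, Finset.sum_insert ha]
    exact hJ.mul (hf a (Finset.mem_insert_self a t))
      (ih (fun i hi => hf i (Finset.mem_insert_of_mem hi)))

theorem prod_one_add (hJ : JLaws k n) {ι : Type} (w : ℕ) (t : Finset ι) (f : ι → PS k n)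
    (hf : ∀ i ∈ t, f i ∈ J k n w) :
    ∏ i ∈ t, (1 + f i) - 1 - ∑ i ∈ t, f i ∈ J k n (2 * w) := by
  classical
  induction t using Finset.induction_on with
  | empty =>
    have h : (∏ i ∈ (∅ : Finset ι), (1 + f i)) - 1 - ∑ i ∈ (∅ : Finset ι), f i = 0 := by simp
    rw [h]
    exact (J k n (2 * w)).zero_mem
  | insert a t ha ih =>
    have ih' := ih (fun i hi => hf i (Finset.mem_insert_of_mem hi))
    have hfa := hf a (Finset.mem_insert_self a t)
    have hsum : ∑ i ∈ t, f i ∈ J k n w :=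
      (J k n w).sum_mem (fun i hi => hf i (Finset.mem_insert_of_mem hi))
    rw [Finset.prod_insert ha, Finset.sum_insert ha]
    have e1 : (1 + f a) * ∏ i ∈ t, (1 + f i) - 1 - (f a + ∑ i ∈ t, f i)
        = (∏ i ∈ t, (1 + f i) - 1 - ∑ i ∈ t, f i) + f a * (∑ i ∈ t, f i)
          + f a * (∏ i ∈ t, (1 + f i) - 1 - ∑ i ∈ t, f i) := by
      ring
    rw [e1]
    refine (J k n (2 * w)).add_mem ((J k n (2 * w)).add_mem ih' ?_) ?_
    · have := hJ.mul hfa hsum
      rw [two_mul]
      exact this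
    · exact hJ.mono (by omega) (hJ.mul hfa ih')

/-- `σ ≠ 1` gives terms of weight at least `2 w` -/
theorem perm_mem (hJ : JLaws k n) {s : Finset (Vr n)} (w : ℕ) (hw : 1 ≤ w)
    (M : Matrix s s (PS k n))
    (hM : ∀ u v : s, u ≠ v → M u v ∈ J k n (w + wt (u : Vr n) - wt (v : Vr n)))
    (σ : Equiv.Perm s) (hσ : σ ≠ 1) : ∏ i, M (σ i) i ∈ J k n (w + 1) := by
  classical
  set e : s → ℕ := fun i => if σ i = i then 0 else w + wt (σ i : Vr n) - wt (i : Vr n) with he
  have h1 : ∏ i, M (σ i) i ∈ J k n (∑ i, e i) := by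
    refine prod_mem hJ Finset.univ e _ ?_
    intro i _
    by_cases h : σ i = i
    · have : e i = 0 := by rw [he]; simp [h]
      rw [this]
      exact hJ.zero _
    · have : e i = w + wt (σ i : Vr n) - wt (i : Vr n) := by rw [he]; simp [h]
      rw [this]
      exact hM _ _ h
  have hwt : ∀ v : Vr n, wt v ≤ 1 := by
    intro v
    rcases v with i | j
    · simp [wt]
    · simp [wt]
  have h2 : ∑ i, e i + ∑ i : s, wt (i : Vr n)
      = ∑ i, (if σ i = i then 0 else w) + ∑ i : s, wt (i : Vr n) := by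
    have h3 : ∑ i : s, wt (σ i : Vr n) = ∑ i : s, wt (i : Vr n) :=
      Equiv.sum_comp σ (fun i : s => wt (i : Vr n))
    calc ∑ i, e i + ∑ i : s, wt (i : Vr n) = ∑ i, (e i + wt (i : Vr n)) := by
          rw [Finset.sum_add_distrib]
      _ = ∑ i, ((if σ i = i then 0 else w) + wt (σ i : Vr n)) := by
          refine Finset.sum_congr rfl ?_
          intro i _
          by_cases h : σ i = i
          · have : e i = 0 := by rw [he]; simp [h]
            rw [this, if_pos h, h]
          · have : e i = w + wt (σ i : Vr n) - wt (i : Vr n) := by rw [he]; simp [h]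
            rw [this, if_neg h]
            have := hwt (i : Vr n)
            omega
      _ = ∑ i, (if σ i = i then 0 else w) + ∑ i : s, wt (σ i : Vr n) := by
          rw [Finset.sum_add_distrib]
      _ = _ := by rw [h3]
  have h4 : ∑ i, e i = ∑ i, (if σ i = i then 0 else w) := by omega
  have h5 : ∑ i, (if σ i = i then 0 else w) = σ.support.card * w := by
    rw [Finset.sum_ite, Finset.sum_const_zero, zero_add, Finset.sum_const, smul_eq_mul]
    congr 1
  have h6 : 2 ≤ σ.support.card := Equiv.Perm.two_le_card_support_of_ne_one hσ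
  have h7 : w + 1 ≤ ∑ i, e i := by
    rw [h4, h5]
    nlinarith
  exact hJ.mono h7 h1

theorem main (hJ : JLaws k n) {s : Finset (Vr n)} (w : ℕ) (hw : 1 ≤ w) (δ : Vr n → PS k n)
    (hδ : ∀ v, δ v ∈ J k n (w + wt v)) (M : Matrix s s (PS k n))
    (hM : ∀ u v : s, M u v = (1 : Matrix s s (PS k n)) u v
      + MvPolynomial.pderiv (v : Vr n) (δ (u : Vr n))) (c : k)
    (hc : M.det = MvPolynomial.C c) :
    ∑ v ∈ s, MvPolynomial.pderiv v (δ v) ∈ J k n (w + 1) := by
  classical
  have hE : ∀ u v : s, MvPolynomial.pderiv (v : Vr n) (δ (u : Vr n))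
      ∈ J k n (w + wt (u : Vr n) - wt (v : Vr n)) := fun u v => hJ.pd' _ (hδ _)
  have hEd : ∀ v : s, MvPolynomial.pderiv (v : Vr n) (δ (v : Vr n)) ∈ J k n w := by
    intro v
    have := hE v v
    rwa [Nat.add_sub_cancel] at this
  have hoff : ∀ u v : s, u ≠ v → M u v ∈ J k n (w + wt (u : Vr n) - wt (v : Vr n)) := by
    intro u v huv
    rw [hM, Matrix.one_apply_ne huv, zero_add]
    exact hE u v
  have hS : ∑ v ∈ s, MvPolynomial.pderiv v (δ v)
      = ∑ v : s, MvPolynomial.pderiv (v : Vr n) (δ (v : Vr n)) := by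
    rw [← Finset.sum_coe_sort s (fun v => MvPolynomial.pderiv v (δ v))]
  rw [hS]
  set S := ∑ v : s, MvPolynomial.pderiv (v : Vr n) (δ (v : Vr n)) with hSdef
  have hSw : S ∈ J k n w := (J k n w).sum_mem (fun v _ => hEd v)
  -- the determinant
  have hdet : M.det - 1 - S ∈ J k n (w + 1) := by
    rw [Matrix.det_apply, ← Finset.add_sum_erase _ _ (Finset.mem_univ (1 : Equiv.Perm s))]
    have e1 : Equiv.Perm.sign (1 : Equiv.Perm s) • ∏ i, M ((1 : Equiv.Perm s) i) i
        = ∏ i : s, (1 + MvPolynomial.pderiv (i : Vr n) (δ (i : Vr n))) := by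
      rw [Equiv.Perm.sign_one, one_smul]
      refine Finset.prod_congr rfl ?_
      intro i _
      rw [Equiv.Perm.one_apply, hM, Matrix.one_apply_eq]
    rw [e1]
    have h1 := prod_one_add hJ w (Finset.univ : Finset s)
      (fun i : s => MvPolynomial.pderiv (i : Vr n) (δ (i : Vr n))) (fun i _ => hEd i)
    have h2 : ∑ σ ∈ (Finset.univ : Finset (Equiv.Perm s)).erase 1,
        Equiv.Perm.sign σ • ∏ i, M (σ i) i ∈ J k n (w + 1) := by
      refine (J k n (w + 1)).sum_mem ?_
      intro σ hσ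
      have h3 := perm_mem hJ w hw M hoff σ (Finset.ne_of_mem_erase hσ)
      rcases Int.units_eq_one_or (Equiv.Perm.sign σ) with h | h
      · rw [h, one_smul]
        exact h3
      · rw [h]
        have : (-1 : ℤˣ) • ∏ i, M (σ i) i = - ∏ i, M (σ i) i := by
          rw [Units.smul_def]
          simp
        rw [this]
        exact (J k n (w + 1)).neg_mem h3
    have e2 : (∏ i : s, (1 + MvPolynomial.pderiv (i : Vr n) (δ (i : Vr n)))
        + ∑ σ ∈ (Finset.univ : Finset (Equiv.Perm s)).erase 1,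
          Equiv.Perm.sign σ • ∏ i, M (σ i) i) - 1 - S
        = (∏ i : s, (1 + MvPolynomial.pderiv (i : Vr n) (δ (i : Vr n))) - 1 - S)
        + ∑ σ ∈ (Finset.univ : Finset (Equiv.Perm s)).erase 1,
          Equiv.Perm.sign σ • ∏ i, M (σ i) i := by ring
    rw [e2]
    exact (J k n (w + 1)).add_mem (hJ.mono (by omega) h1) h2
  rw [hc] at hdet
  have hc1 : MvPolynomial.C (c - 1) ∈ J k n 1 := by
    have e3 : (MvPolynomial.C (c - 1) : PS k n) = (MvPolynomial.C c - 1 - S) + S := by
      rw [MvPolynomial.C_sub, MvPolynomial.C_1]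
      ring
    rw [e3]
    exact (J k n 1).add_mem (hJ.mono (by omega) hdet) (hJ.mono hw hSw)
  have hc2 : c = 1 := by
    have := hJ.const hc1
    exact sub_eq_zero.1 this
  rw [hc2, MvPolynomial.C_1] at hdet
  have e4 : S = -(1 - 1 - S) := by ring
  rw [e4]
  exact (J k n (w + 1)).neg_mem hdet

end

end Pool.AM.DIV_

/-- block DIV -/
theorem Pool.AM.stmt_DIV (hJ : Pool.AM.Stmt_J) (hJAC : Pool.AM.Stmt_JAC) : Pool.AM.Stmt_DIV := by
  classical
  intro k _ n L w θ hw hFL hLvl
  obtain ⟨c, _, hdet⟩ := hJAC k (Pool.AM.Vr n) (Pool.AM.lowF n L) θ (by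
    intro v hv
    rw [Pool.AM.DIV_.coe_lowF]
    exact (hFL.1 v ((Pool.AM.DIV_.mem_low n L v).2 hv)).2)
  refine Pool.AM.DIV_.main (hJ k n) w hw
    (fun v => θ (MvPolynomial.X v) - MvPolynomial.X v) hLvl
    (Matrix.of fun (u v : (Pool.AM.lowF n L)) =>
      MvPolynomial.pderiv (v : Pool.AM.Vr n) (θ (MvPolynomial.X (u : Pool.AM.Vr n)))) ?_ c ?_
  · intro u v
    rw [Matrix.of_apply, map_sub, MvPolynomial.pderiv_X]
    have e : (Pi.single (v : Pool.AM.Vr n) (1 : Pool.AM.PS k n) : Pool.AM.Vr n → Pool.AM.PS k n)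
        (u : Pool.AM.Vr n)
        = (1 : Matrix (Pool.AM.lowF n L) (Pool.AM.lowF n L) (Pool.AM.PS k n)) u v := by
      by_cases h : u = v
      · rw [h, Matrix.one_apply_eq, Pi.single_eq_same]
      · rw [Matrix.one_apply_ne h, Pi.single_eq_of_ne]
        intro h'
        exact h (Subtype.ext h')
    rw [← e]
    ring
  · exact hdet
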