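import Pool.Agent.Work.MP_91aed7_am.Interface

/-!
# MP_91aed7_ag, block LV: laws for `Lvl`
-/

set_option autoImplicit false

namespace Pool.AM.LV_

noncomputable section

variable {k : Type} [Field k] {n : ℕ}

theorem X_mem (hJ : JLaws k n) {w : ℕ} {θ : PS k n ≃ₐ[k] PS k n} (h : Lvl w θ) (v : Vr n) :
    θ (MvPolynomial.X v) ∈ J k n (wt v) := by
  have e : θ (MvPolynomial.X v) = (θ (MvPolynomial.X v) - MvPolynomial.X v) + MvPolynomial.X v := by
    ring
  rw [e]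
  exact (J k n (wt v)).add_mem (hJ.mono (by omega) (h v)) (hJ.X_mem v)

theorem pres (hJ : JLaws k n) {w : ℕ} {θ : PS k n ≃ₐ[k] PS k n} (h : Lvl w θ) {r : ℕ}
    {f : PS k n} (hf : f ∈ J k n r) : θ f ∈ J k n r ∧ θ f - f ∈ J k n (r + w) := by
  refine ⟨hJ.pres θ.toAlgHom (fun v => X_mem hJ h v) hf, ?_⟩
  have := hJ.diff θ.toAlgHom (AlgHom.id k (PS k n)) w (fun v => X_mem hJ h v)
    (fun v => hJ.X_mem v) (fun v => h v) hf
  exact this

theorem mul (hJ : JLaws k n) {w : ℕ} {θ θ' : PS k n ≃ₐ[k] PS k n} (h : Lvl w θ)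
    (h' : Lvl w θ') : Lvl w (θ * θ') := by
  intro v
  have e : (θ * θ') (MvPolynomial.X v) - MvPolynomial.X v
      = θ (θ' (MvPolynomial.X v) - MvPolynomial.X v)
        + (θ (MvPolynomial.X v) - MvPolynomial.X v) := by
    rw [AlgEquiv.mul_apply, map_sub]
    ring
  rw [e]
  exact (J k n (w + wt v)).add_mem (pres hJ h (h' v)).1 (h v)

theorem presi (hJ : JLaws k n) {w : ℕ} {θ : PS k n ≃ₐ[k] PS k n} (hw : 1 ≤ w) (h : Lvl w θ)
    {r : ℕ} {f : PS k n} (hf : f ∈ J k n r) : θ⁻¹ f ∈ J k n r := by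
  have key : ∀ s, s ≤ r → θ⁻¹ f ∈ J k n s := by
    intro s
    induction s with
    | zero => intro _; exact hJ.zero _
    | succ s ih =>
      intro hs
      have h1 := ih (by omega)
      have h2 : θ (θ⁻¹ f) = f := by
        rw [← AlgEquiv.mul_apply, mul_inv_cancel, AlgEquiv.one_apply]
      have e : θ⁻¹ f = f - (θ (θ⁻¹ f) - θ⁻¹ f) := by
        rw [h2]; ring
      rw [e]
      exact (J k n (s + 1)).sub_mem (hJ.mono hs hf) (hJ.mono (by omega) (pres hJ h h1).2)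
  exact key r le_rfl

theorem inv (hJ : JLaws k n) {w : ℕ} {θ : PS k n ≃ₐ[k] PS k n} (hw : 1 ≤ w) (h : Lvl w θ) :
    Lvl w θ⁻¹ := by
  intro v
  have h2 : θ⁻¹ (θ (MvPolynomial.X v)) = MvPolynomial.X v := by
    rw [← AlgEquiv.mul_apply, inv_mul_cancel, AlgEquiv.one_apply]
  have e : θ⁻¹ (MvPolynomial.X v) - MvPolynomial.X v
      = - θ⁻¹ (θ (MvPolynomial.X v) - MvPolynomial.X v) := by
    rw [map_sub, h2]
    ring
  rw [e]
  exact (J k n (w + wt v)).neg_mem (presi hJ hw h (h v))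

end

end Pool.AM.LV_

/-- block LV -/
theorem Pool.AM.stmt_LV (hJ : Pool.AM.Stmt_J) : Pool.AM.Stmt_LV := by
  intro k _ n
  have hk := hJ k n
  exact
    { pres := fun h _ _ hf => Pool.AM.LV_.pres hk h hf
      mul := fun h h' => Pool.AM.LV_.mul hk h h'
      presi := fun hw h _ _ hf => Pool.AM.LV_.presi hk hw h hf
      inv := fun hw h => Pool.AM.LV_.inv hk hw h
      mono := fun hww h v => hk.mono (by omega) (h v) }
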